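import Pool.Agent.Helper50.BC.Goals

open scoped ContDiff
open Real

namespace Pool.Agent.Helper74.BC

open Pool.Agent.Helper50.BC

/-- rounding of a number in [-1, 1] towards 0 with denominator N -/
theorem round1 (N : ℕ) (hN : 0 < N) (x : ℝ) (hx : |x| ≤ 1) :
    ∃ l : Fin (2 * N + 1), |(((l : ℕ) : ℝ) - N) / N| ≤ |x| ∧
      |x - (((l : ℕ) : ℝ) - N) / N| ≤ 1 / N := by
  have hN' : (0 : ℝ) < N := by exact_mod_cast hN
  set n : ℕ := ⌊(N : ℝ) * |x|⌋₊ with hn
  have h0 : 0 ≤ (N : ℝ) * |x| := mul_nonneg hN'.le (abs_nonneg _)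
  have h1 : (n : ℝ) ≤ N * |x| := Nat.floor_le h0
  have h2 : (N : ℝ) * |x| < n + 1 := Nat.lt_floor_add_one _
  have h3 : (n : ℝ) ≤ N := le_trans h1 (by nlinarith)
  have h3' : n ≤ N := by exact_mod_cast h3
  have h4 : (n : ℝ) / N ≤ |x| := by
    rw [div_le_iff₀ hN']; linarith
  have h5 : |x| < (n : ℝ) / N + 1 / N := by
    rw [← add_div, lt_div_iff₀ hN']; linarith
  rcases le_total 0 x with hx0 | hx0
  · refine ⟨⟨N + n, by omega⟩, ?_, ?_⟩
    · have : (((N + n : ℕ) : ℝ) - N) / N = n / N := by push_cast; ring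
      simp only [this]
      rw [abs_of_nonneg (by positivity)]; exact h4
    · have : (((N + n : ℕ) : ℝ) - N) / N = n / N := by push_cast; ring
      simp only [this]
      rw [abs_of_nonneg hx0] at h4 h5
      rw [abs_le]; constructor <;> linarith
  · refine ⟨⟨N - n, by omega⟩, ?_, ?_⟩
    · have : (((N - n : ℕ) : ℝ) - N) / N = -(n / N) := by
        rw [Nat.cast_sub h3']; ring
      simp only [this]
      rw [abs_neg, abs_of_nonneg (by positivity)]; exact h4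
    · have : (((N - n : ℕ) : ℝ) - N) / N = -(n / N) := by
        rw [Nat.cast_sub h3']; ring
      simp only [this]
      rw [abs_of_nonpos hx0] at h4 h5
      rw [abs_le]; constructor <;> linarith

/-- the net of the unit ball -/
theorem net (q : ℕ) (hq : 1 ≤ q) (v : E q) (hv : ‖v‖ ≤ 1) :
    ∃ l : Fin q → Fin (2000 * q + 1), ‖gv l‖ ≤ ‖v‖ ∧ ‖v - gv l‖ ≤ 1 / 1000 := by
  have hq' : (1 : ℝ) ≤ q := by exact_mod_cast hq
  have hco : ∀ i, |v i| ≤ 1 := by
    intro i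
    refine le_trans ?_ hv
    have := PiLp.norm_apply_le v i
    simpa [Real.norm_eq_abs] using this
  have hex : ∀ i, ∃ l : Fin (2000 * q + 1), |(((l : ℕ) : ℝ) - 1000 * q) / (1000 * q)| ≤ |v i| ∧
      |v i - (((l : ℕ) : ℝ) - 1000 * q) / (1000 * q)| ≤ 1 / (1000 * q) := by
    intro i
    obtain ⟨l, h1, h2⟩ := round1 (1000 * q) (by omega) (v i) (hco i)
    refine ⟨⟨l, by have := l.2; omega⟩, ?_, ?_⟩
    · simpa using h1
    · simpa using h2
  choose l h1 h2 using hex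
  refine ⟨l, ?_, ?_⟩
  · rw [EuclideanSpace.norm_eq, EuclideanSpace.norm_eq]
    apply Real.sqrt_le_sqrt
    apply Finset.sum_le_sum
    intro i _
    have := h1 i
    simp only [gv, Real.norm_eq_abs]
    exact pow_le_pow_left₀ (abs_nonneg _) this 2
  · rw [EuclideanSpace.norm_eq]
    have hs : ∑ i, ‖(v - gv l) i‖ ^ 2 ≤ (1 / 1000) ^ 2 := by
      calc ∑ i, ‖(v - gv l) i‖ ^ 2 ≤ ∑ _i : Fin q, (1 / (1000 * (q : ℝ))) ^ 2 := by
            apply Finset.sum_le_sum
            intro i _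
            have := h2 i
            apply pow_le_pow_left₀ (norm_nonneg _)
            simpa [gv, Real.norm_eq_abs] using this
        _ = (1 / 1000) ^ 2 * (1 / q) := by
            rw [Finset.sum_const, Finset.card_univ, Fintype.card_fin, nsmul_eq_mul]
            field_simp
        _ ≤ (1 / 1000) ^ 2 * 1 := by
            apply mul_le_mul_of_nonneg_left _ (by positivity)
            rw [div_le_one (by linarith)]; exact hq'
        _ = (1 / 1000) ^ 2 := by ring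
    calc √(∑ i, ‖(v - gv l) i‖ ^ 2) ≤ √((1 / 1000) ^ 2) := Real.sqrt_le_sqrt hs
      _ = 1 / 1000 := Real.sqrt_sq (by norm_num)

section
variable {q k : ℕ} {Y : Type} [NormedAddCommGroup Y] [NormedSpace ℝ Y]

/-- a multilinear map on Euclidean spaces is bounded -/
theorem exbound (T : MultilinearMap ℝ (fun _ : Fin k => E q) Y) :
    ∃ C : ℝ, ∀ v, ‖T v‖ ≤ C * ∏ i, ‖v i‖ := by
  classical
  let e : Fin q → E q := fun j => EuclideanSpace.single j (1 : ℝ)
  refine ⟨∑ r : Fin k → Fin q, ‖T (fun i => e (r i))‖, fun v => ?_⟩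
  have hv : v = fun i => ∑ j, (v i j) • e j := by
    funext i
    ext j
    simp [e, Finset.sum_apply, Pi.single_apply]
  have h1 : T v = ∑ r : Fin k → Fin q, (∏ i, v i (r i)) • T (fun i => e (r i)) := by
    conv_lhs => rw [hv]
    rw [MultilinearMap.map_sum]
    apply Finset.sum_congr rfl
    intro r _
    rw [← MultilinearMap.map_smul_univ]
  rw [h1, Finset.sum_mul]
  refine le_trans (norm_sum_le _ _) ?_
  apply Finset.sum_le_sum
  intro r _
  rw [norm_smul, mul_comm]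
  apply mul_le_mul_of_nonneg_left _ (norm_nonneg _)
  rw [norm_prod]
  apply Finset.prod_le_prod
  · intro i _; exact norm_nonneg _
  · intro i _; exact PiLp.norm_apply_le (v i) (r i)

/-- homogeneity -/
theorem homog (T : MultilinearMap ℝ (fun _ : Fin k => E q) Y) (C : ℝ) (hC : 0 ≤ C)
    (h : ∀ v : Fin k → E q, (∀ i, ‖v i‖ ≤ 1) → ‖T v‖ ≤ C) (v : Fin k → E q) :
    ‖T v‖ ≤ C * ∏ i, ‖v i‖ := by
  by_cases hz : ∃ i, v i = 0
  · obtain ⟨i, hi⟩ := hz
    rw [T.map_coord_zero i hi, norm_zero]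
    exact mul_nonneg hC (Finset.prod_nonneg (fun i _ => norm_nonneg _))
  · push Not at hz
    have hv : v = fun i => ‖v i‖ • ((‖v i‖)⁻¹ • v i) := by
      funext i
      rw [smul_smul, mul_inv_cancel₀ (norm_ne_zero_iff.2 (hz i)), one_smul]
    have h1 : T v = (∏ i, ‖v i‖) • T (fun i => (‖v i‖)⁻¹ • v i) := by
      conv_lhs => rw [hv]
      rw [MultilinearMap.map_smul_univ]
    rw [h1, norm_smul, Real.norm_of_nonneg (Finset.prod_nonneg (fun i _ => norm_nonneg _)),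
      mul_comm]
    apply mul_le_mul_of_nonneg_right _ (Finset.prod_nonneg (fun i _ => norm_nonneg _))
    apply h
    intro i
    rw [norm_smul, norm_inv, norm_norm, inv_mul_cancel₀ (norm_ne_zero_iff.2 (hz i))]

theorem part1 (hq : 1 ≤ q) (hk : k ≤ 3) (T : MultilinearMap ℝ (fun _ : Fin k => E q) Y)
    (M : ℝ) (hM : 0 ≤ M)
    (h : ∀ l : Fin k → Fin q → Fin (2000 * q + 1), (∀ i, ‖gv (l i)‖ ≤ 1) →
      ‖T (fun i => gv (l i))‖ ≤ M) (v : Fin k → E q) :
    ‖T v‖ ≤ 1000 / 997 * M * ∏ i, ‖v i‖ := by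
  obtain ⟨C0, hC0⟩ := exbound T
  set T' : ContinuousMultilinearMap ℝ (fun _ : Fin k => E q) Y := T.mkContinuous C0 hC0 with hT'
  have hTT : ∀ w, T w = T' w := fun w => rfl
  have hN : ∀ w, ‖T w‖ ≤ ‖T'‖ * ∏ i, ‖w i‖ := fun w => by
    rw [hTT]; exact T'.le_opNorm w
  have hpos : 0 ≤ ‖T'‖ := norm_nonneg _
  have key : ∀ w : Fin k → E q, (∀ i, ‖w i‖ ≤ 1) → ‖T w‖ ≤ M + 3 / 1000 * ‖T'‖ := by
    intro w hw
    choose l h1 h2 using fun i => net q hq (w i) (hw i)
    have hg : ∀ i, ‖gv (l i)‖ ≤ 1 := fun i => (h1 i).trans (hw i)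
    have h3 := T.norm_image_sub_le_of_bound hpos hN w (fun i => gv (l i))
    rw [Fintype.card_fin] at h3
    have h4 : ‖w‖ ≤ 1 := (pi_norm_le_iff_of_nonneg zero_le_one).2 hw
    have h5 : ‖(fun i => gv (l i))‖ ≤ 1 := (pi_norm_le_iff_of_nonneg zero_le_one).2 hg
    have h6 : ‖w - (fun i => gv (l i))‖ ≤ 1 / 1000 :=
      (pi_norm_le_iff_of_nonneg (by norm_num)).2 (fun i => h2 i)
    have h7 : max ‖w‖ ‖(fun i => gv (l i))‖ ^ (k - 1) ≤ 1 :=
      pow_le_one₀ (le_max_of_le_left (norm_nonneg _)) (max_le h4 h5)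
    have hk' : (k : ℝ) ≤ 3 := by exact_mod_cast hk
    have h8 : ‖T w - T (fun i => gv (l i))‖ ≤ 3 / 1000 * ‖T'‖ := by
      refine h3.trans ?_
      calc ‖T'‖ * k * max ‖w‖ ‖(fun i => gv (l i))‖ ^ (k - 1) * ‖w - (fun i => gv (l i))‖
          ≤ ‖T'‖ * 3 * 1 * (1 / 1000) := by
            apply mul_le_mul _ h6 (norm_nonneg _) (by positivity)
            apply mul_le_mul _ h7 (by positivity) (by positivity)
            exact mul_le_mul_of_nonneg_left hk' hpos
        _ = 3 / 1000 * ‖T'‖ := by ring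
    have h9 := h l hg
    have h10 : ‖T w‖ ≤ ‖T (fun i => gv (l i))‖ + ‖T w - T (fun i => gv (l i))‖ := by
      have := norm_add_le (T (fun i => gv (l i))) (T w - T (fun i => gv (l i)))
      simpa using this
    linarith
  have hb : ‖T'‖ ≤ M + 3 / 1000 * ‖T'‖ := by
    apply ContinuousMultilinearMap.opNorm_le_bound (by positivity)
    intro w
    rw [← hTT]
    exact homog T _ (by positivity) key w
  have hc : ‖T'‖ ≤ 1000 / 997 * M := by linarith
  exact (hN v).trans (mul_le_mul_of_nonneg_right hc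
    (Finset.prod_nonneg (fun i _ => norm_nonneg _)))

theorem part2 (hq : 1 ≤ q) (T : E q →ₗ[ℝ] Y) (a M : ℝ) (ha : 0 ≤ a) (hM : 0 ≤ M)
    (hT : ∀ v, ‖T v‖ ≤ M * ‖v‖)
    (h : ∀ l : Fin q → Fin (2000 * q + 1), ‖gv l‖ ≤ 1 → a * ‖gv l‖ ≤ ‖T (gv l)‖) (v : E q) :
    (999 / 1000 * a - M / 1000) * ‖v‖ ≤ ‖T v‖ := by
  by_cases hv : v = 0
  · simp [hv]
  have hn : 0 < ‖v‖ := norm_pos_iff.2 hv
  set u : E q := (‖v‖)⁻¹ • v with hu
  have hu1 : ‖u‖ = 1 := by
    rw [hu, norm_smul, norm_inv, norm_norm, inv_mul_cancel₀ hn.ne']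
  obtain ⟨l, h1, h2⟩ := net q hq u hu1.le
  have h3 := h l (h1.trans hu1.le)
  have h4 : 999 / 1000 ≤ ‖gv l‖ := by
    have := norm_sub_norm_le u (gv l)
    rw [hu1] at this
    linarith
  have h5 : ‖T (u - gv l)‖ ≤ M * (1 / 1000) := (hT _).trans (mul_le_mul_of_nonneg_left h2 hM)
  have h6 : ‖T (gv l)‖ ≤ ‖T u‖ + ‖T (u - gv l)‖ := by
    have h7 : T (gv l) = T u - T (u - gv l) := by rw [map_sub]; abel
    rw [h7]; exact norm_sub_le _ _
  have h8 : a * (999 / 1000) ≤ a * ‖gv l‖ := mul_le_mul_of_nonneg_left h4 ha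
  have h9 : 999 / 1000 * a - M / 1000 ≤ ‖T u‖ := by linarith
  have h10 : ‖T v‖ = ‖T u‖ * ‖v‖ := by
    have : v = ‖v‖ • u := by rw [hu, smul_smul, mul_inv_cancel₀ hn.ne', one_smul]
    conv_lhs => rw [this]
    rw [map_smul, norm_smul, norm_norm, mul_comm]
  rw [h10]
  exact mul_le_mul_of_nonneg_right h9 hn.le

end

theorem goalNTV : G_NTV := by
  intro q hq Y _ _ _
  exact ⟨fun k hk T M hM h v => part1 hq hk T M hM h v,
    fun T a M ha hM hT h v => part2 hq T a M ha hM hT h v⟩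

end Pool.Agent.Helper74.BC
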